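import Pool.Agent.J6H24.MC.Use

set_option autoImplicit false
set_option linter.unusedSectionVars false
set_option linter.unusedVariables false

/-!
# The hypotheses on the contracted graph in terms of representatives of the components
-/

namespace Pool.Agent.J6H24.MC

open Finset Relation Pool.Agent.TH362.TF Pool.Agent.R890.FF
open Pool.Agent.R140.PK (FC Cov)
open Pool.Agent.TH676.Z (crs)

variable {V E : Type} [Fintype V] [DecidableEq V] [Fintype E] [DecidableEq E]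

/-- connected in the simple graph whose edges come from `F` -/
theorem lk_iff (s t : E → V) (F : Finset E) (G : SimpleGraph V)
    (hG : ∀ x y, G.Adj x y ↔ x ≠ y ∧ ∃ e ∈ (F : Set E), (s e = x ∧ t e = y) ∨ (s e = y ∧ t e = x))
    (x y : V) : Lk s t F x y ↔ G.Reachable x y := by
  constructor
  · intro h
    unfold Lk at h
    induction h with
    | rel a b hab =>
      obtain ⟨e, he, rfl, rfl⟩ := hab
      by_cases h : s e = t e
      · rw [h]
      · exact SimpleGraph.Adj.reachable ((hG _ _).2 ⟨h, e, he, Or.inl ⟨rfl, rfl⟩⟩)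
    | refl a => exact SimpleGraph.Reachable.refl _
    | symm a b _ ih => exact ih.symm
    | trans a b c _ _ ih1 ih2 => exact ih1.trans ih2
  · rintro ⟨p⟩
    induction p with
    | nil => exact EqvGen.refl _
    | cons hadj _ ih =>
      obtain ⟨_, e, he, h1⟩ := (hG _ _).1 hadj
      refine EqvGen.trans _ _ _ ?_ ih
      rcases h1 with ⟨h2, h3⟩ | ⟨h2, h3⟩
      · exact EqvGen.rel _ _ ⟨e, he, h2, h3⟩
      · exact EqvGen.symm _ _ (EqvGen.rel _ _ ⟨e, he, h2, h3⟩)

/-- a circuit with more than 13 vertices in the contracted graph -/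
theorem noLong_of {s t : E → V} {F : Finset E} {r : V → V} (hr : IsCtr s t F r)
    (h : ∀ n, 13 < n → ∀ v : ℕ → V,
      ¬ ((∀ i < n, ∀ j < n, Lk s t F (v i) (v j) → i = j) ∧ ∀ i < n, ∃ e,
        (Lk s t F (s e) (v i) ∧ Lk s t F (t e) (v ((i + 1) % n))) ∨
          (Lk s t F (s e) (v ((i + 1) % n)) ∧ Lk s t F (t e) (v i)))) :
    Pool.Agent.N393.C13.NoLong (fun e => r (s e)) (fun e => r (t e)) := by
  classical
  refine Pool.Agent.N393.C13.NoLong.of ?_
  rintro n hn v ⟨h1, h2⟩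
  have h3 : ∀ i < n, ∃ x, r x = v i := by
    intro i hi
    obtain ⟨e, he⟩ := h2 i hi
    rcases he with ⟨h4, _⟩ | ⟨_, h4⟩
    · exact ⟨_, h4⟩
    · exact ⟨_, h4⟩
  have : Nonempty V := ⟨v 0⟩
  choose! f hf using h3
  refine h n hn f ⟨fun i hi j hj hij => ?_, fun i hi => ?_⟩
  · apply h1 i hi j hj
    rw [← hf i hi, ← hf j hj]
    exact (hr _ _).2 hij
  · obtain ⟨e, he⟩ := h2 i hi
    have h5 : (i + 1) % n < n := Nat.mod_lt _ (by omega)
    refine ⟨e, ?_⟩
    rw [← hf i hi, ← hf _ h5] at he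
    rcases he with ⟨h6, h7⟩ | ⟨h6, h7⟩
    · exact Or.inl ⟨(hr _ _).1 h6, (hr _ _).1 h7⟩
    · exact Or.inr ⟨(hr _ _).1 h6, (hr _ _).1 h7⟩

/-- an induced path with eight vertices in the contracted graph -/
theorem noPath_of {s t : E → V} {F : Finset E} {r : V → V} (hr : IsCtr s t F r)
    (h : ¬ ∃ p : Fin 8 → V, (∀ i j, Lk s t F (p i) (p j) → i = j) ∧ ∀ i j : Fin 8, i < j →
      ((∃ e, (Lk s t F (s e) (p i) ∧ Lk s t F (t e) (p j)) ∨
        (Lk s t F (s e) (p j) ∧ Lk s t F (t e) (p i))) ↔ i.val + 1 = j.val)) :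
    NoPath (fun e => r (s e)) (fun e => r (t e)) := by
  classical
  rintro ⟨p, hp, h1⟩
  have h3 : ∀ i, ∃ x, r x = p i := by
    intro i
    have h4 : ∃ e, r (s e) = p i ∨ r (t e) = p i := by
      rcases Nat.lt_or_ge i.val 7 with hi | hi
      · obtain ⟨e, he⟩ := (h1 i ⟨i.val + 1, by omega⟩ (by
          rw [Fin.lt_def]; show i.val < i.val + 1; omega)).2 rfl
        rcases he with ⟨h5, _⟩ | ⟨_, h5⟩
        · exact ⟨e, Or.inl h5⟩
        · exact ⟨e, Or.inr h5⟩
      · obtain ⟨e, he⟩ := (h1 ⟨i.val - 1, by omega⟩ i (by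
          rw [Fin.lt_def]; show i.val - 1 < i.val; omega)).2 (by
          show i.val - 1 + 1 = i.val; omega)
        rcases he with ⟨_, h5⟩ | ⟨h5, _⟩
        · exact ⟨e, Or.inr h5⟩
        · exact ⟨e, Or.inl h5⟩
    obtain ⟨e, h4 | h4⟩ := h4
    · exact ⟨_, h4⟩
    · exact ⟨_, h4⟩
  choose f hf using h3
  refine h ⟨f, fun i j hij => ?_, fun i j hij => ?_⟩
  · apply hp
    rw [← hf i, ← hf j]
    exact (hr _ _).2 hij
  · rw [← h1 i j hij]
    refine exists_congr fun e => ?_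
    rw [← hr, ← hr, ← hr, ← hr, hf, hf]

/-- vertex covers and matchings in the contracted graph -/
theorem small_of {s t : E → V} {F : Finset E} {r : V → V} (hr : IsCtr s t F r)
    (h : (∃ X : Finset V, X.card ≤ 9 ∧ ∀ e, ¬ Lk s t F (s e) (t e) →
        ∃ x ∈ X, Lk s t F (s e) x ∨ Lk s t F (t e) x) ∨
      ∀ M : Finset E, (∀ e ∈ M, ¬ Lk s t F (s e) (t e)) →
        (∀ e ∈ M, ∀ e' ∈ M, e ≠ e' → ¬ Lk s t F (s e) (s e') ∧ ¬ Lk s t F (s e) (t e') ∧
          ¬ Lk s t F (t e) (s e') ∧ ¬ Lk s t F (t e) (t e')) → M.card ≤ 8) :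
    Small (fun e => r (s e)) (fun e => r (t e)) := by
  classical
  rcases h with ⟨X, h1, h2⟩ | h
  · refine Or.inl ⟨X.image r, card_image_le.trans h1, fun e he => ?_⟩
    obtain ⟨x, hx, h3 | h3⟩ := h2 e (fun h => he ((hr _ _).2 h))
    · exact Or.inl (mem_image.2 ⟨x, hx, ((hr _ _).2 h3).symm⟩)
    · exact Or.inr (mem_image.2 ⟨x, hx, ((hr _ _).2 h3).symm⟩)
  · refine Or.inr fun M hM => h M (fun e he h3 => hM.1 e he ((hr _ _).2 h3)) fun e he e' he' hne => ?_
    obtain ⟨a, b, c, d⟩ := hM.2 e he e' he' hne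
    exact ⟨fun h => a ((hr _ _).2 h), fun h => b ((hr _ _).2 h), fun h => c ((hr _ _).2 h),
      fun h => d ((hr _ _).2 h)⟩

end Pool.Agent.J6H24.MC
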