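import Pool.Agent.N410.DC.Gen
import Pool.Agent.R140.PK.Cover

set_option autoImplicit false
set_option linter.unusedSectionVars false
set_option linter.unusedVariables false

/-!
# Classes of graphs closed under contraction of connected sets, modulo chains of contractible pieces
-/

namespace Pool.Agent.J6H24.MC

open Finset Relation Pool.Agent.TH362.TF Pool.Agent.R890.FF
open Pool.Agent.R140.PK (FC Cov MinP exists_MinP cov_of_nz cov_sum cov_pet rtg_symm)
open Pool.Agent.TH676.Z (crs)
open Pool.Agent.N410.DC (Chain)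

variable {V E : Type} [Fintype V] [DecidableEq V] [Fintype E] [DecidableEq E]

/-- `x` and `y` are linked by edges of `F` -/
def Lk (s t : E → V) (F : Finset E) : V → V → Prop :=
  Relation.EqvGen (fun a b => ∃ e ∈ F, s e = a ∧ t e = b)

/-- `r` contracts exactly the components of `F` -/
def IsCtr (s t : E → V) (F : Finset E) (r : V → V) : Prop := ∀ x y, r x = r y ↔ Lk s t F x y

/-- `P` is inherited by the contraction of connected sets -/
def Closed (P : (E → V) → (E → V) → Prop) : Prop :=
  ∀ (s t : E → V) (π : V → V), FC s t univ π → P s t → P (fun e => π (s e)) (fun e => π (t e))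

/-- after the contraction of a chain the graph has the property `P` -/
def Mod (P : (E → V) → (E → V) → Prop) (s t : E → V) : Prop :=
  ∃ (m : ℕ) (C : Fin m → Finset E), Chain s t C ∧
    ∃ r, IsCtr s t (univ.biUnion C) r ∧ P (fun e => r (s e)) (fun e => r (t e))

theorem lk_closed {s t : E → V} {F : Finset E} {x y : V} (h : Lk s t F x y) (Q : V → Prop)
    (hQ : ∀ e ∈ F, (Q (s e) ↔ Q (t e))) : Q x ↔ Q y := by
  unfold Lk at h
  induction h with
  | rel a b hab =>
    obtain ⟨e, he, rfl, rfl⟩ := hab
    exact hQ e he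
  | refl a => exact Iff.rfl
  | symm a b _ ih => exact ih.symm
  | trans a b c _ _ ih1 ih2 => exact ih1.trans ih2

theorem isCtr_of {s t : E → V} {F : Finset E} {r : V → V} (q1 : ∀ e ∈ F, r (s e) = r (t e))
    (q3 : ∀ Y : Finset V, Disjoint (crs s t Y) F → ∀ x y, r x = r y → (x ∈ Y ↔ y ∈ Y)) :
    IsCtr s t F r := by
  classical
  intro x y
  constructor
  · intro h
    have h1 := q3 (univ.filter (fun z => Lk s t F x z)) (by
      rw [disjoint_left]
      intro e he heF
      rw [Pool.Agent.R926.SC.mem_crs] at he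
      apply he
      simp only [mem_filter, mem_univ, true_and]
      have h2 : Lk s t F (s e) (t e) := EqvGen.rel _ _ ⟨e, heF, rfl, rfl⟩
      exact ⟨fun h3 => EqvGen.trans _ _ _ h3 h2, fun h3 => EqvGen.trans _ _ _ h3 (EqvGen.symm _ _ h2)⟩)
      x y h
    simp only [mem_filter, mem_univ, true_and] at h1
    exact h1.1 (EqvGen.refl _)
  · intro h
    have h1 := lk_closed h (fun z => r z = r y) (fun e he => by rw [q1 e he])
    exact h1.2 rfl

/-- a map which agrees with `q` after `r`, and is injective outside -/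
theorem exists_factor (r q : V → V) (h : ∀ x y, r x = r y → q x = q y) :
    ∃ g : V → V, (∀ x, g (r x) = q x) ∧ ∀ w w', (∀ x, r x ≠ w) → g w = g w' → w = w' := by
  classical
  set A : Finset V := univ.image r with hA
  set B : Finset V := univ.image q with hB
  have hAB : B.card ≤ A.card := by
    have h1 : ∀ w ∈ A, ∃ x, r x = w := by
      intro w hw
      obtain ⟨x, -, hx⟩ := mem_image.1 hw
      exact ⟨x, hx⟩
    choose! f hf using h1
    have h2 : B ⊆ A.image (fun w => q (f w)) := by
      intro b hb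
      obtain ⟨x, -, rfl⟩ := mem_image.1 hb
      refine mem_image.2 ⟨r x, mem_image_of_mem _ (mem_univ _), ?_⟩
      exact h _ _ (hf (r x) (mem_image_of_mem _ (mem_univ _)))
    exact (card_le_card h2).trans card_image_le
  have hcard : Fintype.card {w // w ∈ Aᶜ} ≤ Fintype.card {w // w ∈ Bᶜ} := by
    rw [Fintype.card_coe, Fintype.card_coe, card_compl, card_compl]
    omega
  obtain ⟨ι⟩ := Function.Embedding.nonempty_of_card_le hcard
  have hAc : ∀ w, (¬ ∃ x, r x = w) → w ∈ Aᶜ := by
    intro w hw
    rw [mem_compl]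
    intro hw'
    obtain ⟨x, -, hx⟩ := mem_image.1 hw'
    exact hw ⟨x, hx⟩
  refine ⟨fun w => if hw : ∃ x, r x = w then q hw.choose else (ι ⟨w, hAc w hw⟩ : V), ?_, ?_⟩
  · intro x
    have hx : ∃ y, r y = r x := ⟨x, rfl⟩
    show (if hw : ∃ y, r y = r x then q hw.choose else _) = q x
    rw [dif_pos hx]
    exact h _ _ hx.choose_spec
  · intro w w' hw hg
    have hw1 : ¬ ∃ x, r x = w := fun ⟨x, hx⟩ => hw x hx
    have hg' : (if hw : ∃ x, r x = w then q hw.choose else (ι ⟨w, hAc w hw⟩ : V)) =
        (if hw : ∃ x, r x = w' then q hw.choose else (ι ⟨w', hAc w' hw⟩ : V)) := hg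
    rw [dif_neg hw1] at hg'
    by_cases hw2 : ∃ x, r x = w'
    · rw [dif_pos hw2] at hg'
      exfalso
      have h3 := (ι ⟨w, hAc w hw1⟩).2
      rw [mem_compl] at h3
      exact h3 (hg' ▸ mem_image_of_mem _ (mem_univ _))
    · rw [dif_neg hw2] at hg'
      have h3 := ι.injective (Subtype.ext hg')
      exact congrArg Subtype.val h3

/-- connected fibres of a composite -/
theorem fc_factor {s t : E → V} {F : Finset E} {π r r' g : V → V} (hπ : FC s t univ π)
    (hr' : IsCtr (fun e => π (s e)) (fun e => π (t e)) F r')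
    (hg : ∀ x, g (r x) = r' (π x)) (hg' : ∀ w w', (∀ x, r x ≠ w) → g w = g w' → w = w') :
    FC (fun e => r (s e)) (fun e => r (t e)) univ g := by
  classical
  intro w w' hw
  by_cases h1 : ∃ x, r x = w
  swap
  · push Not at h1
    rw [hg' w w' h1 hw]
  by_cases h2 : ∃ y, r y = w'
  swap
  · push Not at h2
    rw [hg' w' w h2 hw.symm]
  obtain ⟨x, rfl⟩ := h1
  obtain ⟨y, rfl⟩ := h2
  have h3 : r' (π x) = r' (π y) := by rw [← hg, ← hg]; exact hw
  have h4 := (hr' _ _).1 h3
  -- the vertices which can be reached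
  set P : V → Prop := fun u => r' (π u) = r' (π x) with hP
  have h5 : ReflTransGen (Pool.Agent.R140.PK.St s t univ P) x y := by
    have key := lk_closed h4 (fun c => ∀ z, π z = c →
      ReflTransGen (Pool.Agent.R140.PK.St s t univ P) x z) (by
      have one : ∀ (a b : V), (∃ e : E, Pool.Agent.TH362.TF.Ends s t a b e) → r' (π a) = r' (π b) →
          (∀ z, π z = π a → ReflTransGen (Pool.Agent.R140.PK.St s t univ P) x z) →
          ∀ z, π z = π b → ReflTransGen (Pool.Agent.R140.PK.St s t univ P) x z := by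
        rintro a b ⟨e, he⟩ hab ha z hz
        have h6 := ha a rfl
        have h7 : P a := by
          rcases h6.cases_tail with h8 | ⟨c, -, h8⟩
          · rw [hP, h8]
          · exact h8.2.2
        have h8 : P b := by
          show r' (π b) = r' (π x)
          rw [← hab]; exact h7
        refine (h6.tail ⟨⟨e, mem_univ e, he⟩, h7, h8⟩).trans ?_
        refine Pool.Agent.R140.PK.St.mono ?_ (hπ b z hz.symm)
        intro u hu
        show r' (π u) = r' (π x)
        rw [hu]; exact h8
      intro e he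
      have h6 : r' (π (s e)) = r' (π (t e)) :=
        (hr' _ _).2 (EqvGen.rel _ _ ⟨e, he, rfl, rfl⟩)
      constructor
      · intro h7
        exact one (s e) (t e) ⟨e, Or.inl ⟨rfl, rfl⟩⟩ h6 h7
      · intro h7
        exact one (t e) (s e) ⟨e, Or.inr ⟨rfl, rfl⟩⟩ h6.symm h7)
    refine key.1 ?_ y rfl
    intro z hz
    refine Pool.Agent.R140.PK.St.mono ?_ (hπ x z hz.symm)
    intro u hu
    show r' (π u) = r' (π x)
    rw [hu]
  -- the image
  have h6 : ∀ z, ReflTransGen (Pool.Agent.R140.PK.St s t univ P) x z →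
      ReflTransGen (Pool.Agent.R140.PK.St (fun e => r (s e)) (fun e => r (t e)) univ
        (fun u => g u = g (r x))) (r x) (r z) := by
    intro z hz
    induction hz with
    | refl => exact ReflTransGen.refl
    | @tail b c _ hstep ih =>
      obtain ⟨⟨e, he, hE⟩, hb, hc⟩ := hstep
      refine ih.tail ⟨⟨e, he, ?_⟩, ?_, ?_⟩
      · rcases hE with ⟨h7, h8⟩ | ⟨h7, h8⟩
        · exact Or.inl ⟨by show r (s e) = _; rw [h7], by show r (t e) = _; rw [h8]⟩
        · exact Or.inr ⟨by show r (s e) = _; rw [h7], by show r (t e) = _; rw [h8]⟩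
      · show g (r b) = g (r x)
        rw [hg, hg]; exact hb
      · show g (r c) = g (r x)
        rw [hg, hg]; exact hc
  exact h6 y h5

/-- the class is closed under the contraction of connected sets -/
theorem Mod.closed {P : (E → V) → (E → V) → Prop} (hP : Closed P) : Closed (Mod P) := by
  classical
  rintro s t π hπ ⟨m, C, hC, r, hr, h⟩
  obtain ⟨r', q1, -, q3, -⟩ := Pool.Agent.R926.SC.quotC (fun e => π (s e)) (fun e => π (t e))
    (univ.biUnion C)
  have hr' := isCtr_of q1 q3
  have hmap : ∀ x y, r x = r y → r' (π x) = r' (π y) := by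
    intro x y hxy
    have h1 := (hr x y).1 hxy
    have h2 := lk_closed h1 (fun z => r' (π z) = r' (π y)) (fun e he => by
      have h3 : r' (π (s e)) = r' (π (t e)) := q1 e he
      rw [h3])
    exact h2.2 rfl
  obtain ⟨g, hg, hg'⟩ := exists_factor r (fun x => r' (π x)) hmap
  have hF := fc_factor hπ hr' hg hg'
  refine ⟨m, C, fun i => Pool.Agent.R926.SC.st_map s t π _ _ (hC i), r', hr', ?_⟩
  have h4 := hP _ _ g hF h
  have e1 : (fun e => g (r (s e))) = fun e => r' (π (s e)) := by funext e; exact hg _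
  have e2 : (fun e => g (r (t e))) = fun e => r' (π (t e)) := by funext e; exact hg _
  rw [e1, e2] at h4
  exact h4

/-- **flow or Petersen quotient** -/
theorem Mod.flow {P : (E → V) → (E → V) → Prop} (hP : Closed P)
    (hf : ∀ s t : E → V, N1 s t univ → P s t → NZ s t univ ∨ PQ s t univ) {s t : E → V}
    (hn : N1 s t univ) (h : Mod P s t) : NZ s t univ ∨ PQ s t univ := by
  classical
  obtain ⟨m, C, hC, r1, hr1, h1⟩ := h
  set F := univ.biUnion C with hF
  obtain ⟨r, q1, -, q3, q4⟩ := Pool.Agent.R926.SC.quotC s t F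
  have hr := isCtr_of q1 q3
  have hN : N1 (fun e => r (s e)) (fun e => r (t e)) univ :=
    quot_n1 (S' := univ) (Subset.refl _) (fun e h h' => absurd h h') hn
  have hPr : P (fun e => r (s e)) (fun e => r (t e)) := by
    obtain ⟨g, hg, hg'⟩ := exists_factor r1 r (fun x y hxy => (hr x y).2 ((hr1 x y).1 hxy))
    have hF2 := fc_factor (s := s) (t := t) (π := id) (r' := r) (F := F) (r := r1) (g := g) (by
      intro x y hxy
      have : x = y := hxy
      subst this
      exact ReflTransGen.refl) hr hg hg'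
    have h4 := hP _ _ g hF2 h1
    have e1 : (fun e => g (r1 (s e))) = fun e => r (s e) := by funext e; exact hg _
    have e2 : (fun e => g (r1 (t e))) = fun e => r (t e) := by funext e; exact hg _
    rw [e1, e2] at h4
    exact h4
  rcases hf _ _ hN hPr with h3 | h3
  · left
    have h4 : Pool.Agent.R926.SC.FlA s t F := Pool.Agent.R926.SC.flA_of_nz s t F r q4 h3
    obtain ⟨x, y, b1, b2, b3⟩ :=
      Pool.Agent.R926.SC.foldM Pool.Agent.Y335.FL.circEx s t m C hC h4
    refine ⟨fun e => (x e, y e), fun e _ => ?_, fun v =>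
      Pool.Agent.R926.SC.cons_of s t x y v (b1 v) (b2 v)⟩
    intro h7
    rcases b3 e (notMem_empty e) with h8 | h8
    · exact h8 (congrArg Prod.fst h7)
    · exact h8 (congrArg Prod.snd h7)
  · right
    exact quot_pq (s := s) (t := t) (f := r) (S := univ) (S' := univ) (Subset.refl _)
      (fun e h h' => absurd h h') h3

/-- **six even subgraphs** for classes which are closed under the contraction of connected sets -/
theorem cov_gen {Q : (E → V) → (E → V) → Prop} (hQ : Closed Q)
    (hf : ∀ s t : E → V, N1 s t univ → Q s t → NZ s t univ ∨ PQ s t univ) {s t : E → V}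
    (hn : N1 s t univ) (h : Q s t) : Cov s t := by
  classical
  by_contra hcon
  obtain ⟨π, hπ, hM⟩ := exists_MinP Cov s t hn hcon
  rcases hf (fun e => π (s e)) (fun e => π (t e)) hM.n1 (hQ s t π hπ h) with h1 | h1
  · exact hM.np (cov_of_nz h1)
  · obtain ⟨κ, c, hc⟩ := hM.pet h1 (fun A1 A2 a1 a2 b1 b2 b3 b4 b5 b6 b7 =>
      cov_sum A1 A2 a1 a2 b1 b2 b3 b4 b5 b6 b7)
    obtain ⟨h2, h3⟩ := hc.conn
    exact hM.np (cov_pet hc (hM.mn _ _ (mem_image_of_mem _ (mem_univ _)) h2 h3))

theorem cov_mod {P : (E → V) → (E → V) → Prop} (hP : Closed P)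
    (hf : ∀ s t : E → V, N1 s t univ → P s t → NZ s t univ ∨ PQ s t univ) {s t : E → V}
    (hn : N1 s t univ) (h : Mod P s t) : Cov s t :=
  cov_gen (Mod.closed hP) (fun _ _ h1 h2 => Mod.flow hP hf h1 h2) hn h

end Pool.Agent.J6H24.MC
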