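import Pool.Agent.J6H24.MC.Gen
import Pool.Agent.N393.C13.All
import Pool.Agent.R140.PK.Main8
import Pool.Agent.R769.MN.Mat
import Pool.Agent.R890.FF.Cov

set_option autoImplicit false
set_option linter.unusedSectionVars false
set_option linter.unusedVariables false

/-!
# The properties of the contracted graphs
-/

namespace Pool.Agent.J6H24.MC

open Finset Relation Pool.Agent.TH362.TF Pool.Agent.R890.FF
open Pool.Agent.R140.PK (FC Cov)
open Pool.Agent.TH676.Z (crs)
open Pool.Agent.N410.DC (Chain)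

variable {V E : Type} [Fintype V] [DecidableEq V] [Fintype E] [DecidableEq E]

/-- with the steps in the form of the results -/
theorem Mod.of_steps {P : (E → V) → (E → V) → Prop} {s t : E → V} {m : ℕ} {C : Fin m → Finset E}
    (h : ∀ i, (((C i \ (univ.filter (fun j => j < i)).biUnion C).card ≤ 4 ∧
        ∀ Y : Finset V, Disjoint (crs s t Y) ((univ.filter (fun j => j < i)).biUnion C) →
          (crs s t Y ∩ C i).card ≠ 1) ∨
      ∃ T₁ T₂ : Finset E, T₁ ⊆ C i ∧ T₂ ⊆ C i ∧ Disjoint T₁ T₂ ∧
        ∀ Y : Finset V, Disjoint (crs s t Y) ((univ.filter (fun j => j < i)).biUnion C) →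
          ¬ Disjoint (crs s t Y) (C i) →
            ¬ Disjoint (crs s t Y) T₁ ∧ ¬ Disjoint (crs s t Y) T₂))
    (hP : ∀ r : V → V, IsCtr s t (univ.biUnion C) r → P (fun e => r (s e)) (fun e => r (t e))) :
    Mod P s t := by
  obtain ⟨r, q1, -, q3, -⟩ := Pool.Agent.R926.SC.quotC s t (univ.biUnion C)
  exact ⟨m, C, Pool.Agent.R926.SC.st_of s t m C h, r, isCtr_of q1 q3, hP r (isCtr_of q1 q3)⟩

/-- the six even subgraphs as sets of edges -/
theorem cov_sets {s t : E → V} (h : Cov s t) : ∃ C : Fin 6 → Finset E,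
    (∀ i v, Even (∑ e ∈ C i, ((if s e = v then 1 else 0) + (if t e = v then 1 else 0)))) ∧
      ∀ e, (univ.filter (fun i => e ∈ C i)).card = 4 := by
  obtain ⟨φ, h1, h2⟩ := h
  refine ⟨fun i => univ.filter (fun e => φ e i = 1), fun i v => ?_, fun e => ?_⟩
  · have h3 := congrFun (h2 v) i
    unfold Pool.Agent.TH362.TF.Four.B at h3
    rw [Finset.sum_apply] at h3
    have h4 : ∑ e : E, (((if s e = v then φ e else 0) + (if t e = v then φ e else 0) :
        Pool.Agent.R140.PK.M6) i) =
        ((∑ e ∈ univ.filter (fun e => φ e i = 1),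
          ((if s e = v then 1 else 0) + (if t e = v then 1 else 0)) : ℕ) : ZMod 2) := by
      rw [Finset.sum_filter]
      push_cast
      refine Finset.sum_congr rfl fun e _ => ?_
      rcases Pool.Agent.R140.PK.two01 (φ e i) with h5 | h5 <;> by_cases h6 : s e = v <;>
        by_cases h7 : t e = v <;> simp [h5, h6, h7]
    rw [← ZMod.natCast_eq_zero_iff_even]
    exact h4.symm.trans h3
  · have h3 := h1 e
    unfold Pool.Agent.R140.PK.wt at h3
    rw [← h3]
    congr 1
    ext i
    simp

/-! ## circuits -/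

theorem closed13 : Closed (fun s t : E → V => Pool.Agent.N393.C13.NoLong s t) :=
  fun s t π hπ h => h.map Pool.Agent.N393.C13.leaves hπ

theorem cov13M {s t : E → V} (hn : N1 s t univ)
    (h : Mod (fun s t : E → V => Pool.Agent.N393.C13.NoLong s t) s t) : Cov s t :=
  cov_mod closed13 (fun s t h1 h2 => Pool.Agent.N393.C13.flow13 Pool.Agent.N393.C13.leaves s t h1 h2)
    hn h

/-! ## induced paths -/

/-- no induced path with eight vertices -/
def NoPath (s t : E → V) : Prop := ¬ ∃ p : Fin 8 → V, Function.Injective p ∧ ∀ i j : Fin 8, i < j →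
    ((∃ e, (s e = p i ∧ t e = p j) ∨ (s e = p j ∧ t e = p i)) ↔ i.val + 1 = j.val)

theorem closed8 : Closed (fun s t : E → V => NoPath s t) := by
  rintro s t π hπ hp ⟨q, hq, hq'⟩
  obtain ⟨p, hp1, hp2⟩ := Pool.Agent.R140.PK.lift_path hπ (by omega) q hq (fun i j hij => by
    rw [← hq' i j hij]
    constructor
    · rintro ⟨_, e, _, he⟩
      exact ⟨e, he⟩
    · rintro ⟨e, he⟩
      exact ⟨fun h => absurd (hq h) (ne_of_gt hij), e, mem_univ e, he⟩)
  refine hp ⟨p, hp1, fun i j hij => ?_⟩
  rw [← hp2 i j hij]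
  constructor
  · rintro ⟨e, he⟩
    exact ⟨fun h => absurd (hp1 h) (ne_of_gt hij), e, mem_univ e, he⟩
  · rintro ⟨_, e, _, he⟩
    exact ⟨e, he⟩

theorem cov8M {s t : E → V} (hn : N1 s t univ) (h : Mod (fun s t : E → V => NoPath s t) s t) :
    Cov s t :=
  cov_mod closed8 (fun s t h1 h2 => Pool.Agent.R140.PK.main8 s t h1 h2) hn h

/-! ## vertex covers and matchings -/

/-- at most nine vertices cover all edges, or the edges which are not loops do not contain nine
disjoint ones -/
def Small (s t : E → V) : Prop :=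
  (∃ C : Finset V, C.card ≤ 9 ∧ ∀ e, s e ≠ t e → s e ∈ C ∨ t e ∈ C) ∨
    ∀ M : Finset E, Pool.Agent.R769.MN.IsMat s t M → M.card ≤ 8

theorem closedS : Closed (fun s t : E → V => Small s t) := by
  rintro s t π _ (⟨C, h1, h2⟩ | h)
  · refine Or.inl ⟨C.image π, card_image_le.trans h1, fun e he => ?_⟩
    rcases h2 e (fun h => he (congrArg π h)) with h3 | h3
    · exact Or.inl (mem_image_of_mem _ h3)
    · exact Or.inr (mem_image_of_mem _ h3)
  · exact Or.inr fun M hM => h M (hM.of_map π)

theorem covSM {s t : E → V} (hn : N1 s t univ) (h : Mod (fun s t : E → V => Small s t) s t) :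
    Cov s t :=
  cov_mod closedS (fun s t h1 h2 => by
    rcases h2 with ⟨C, h3, h4⟩ | h3
    · exact Pool.Agent.R890.FF.cover9 s t univ C h1 (fun e _ he => h4 e he) h3
    · exact Pool.Agent.R769.MN.match8 s t univ h1 (fun M _ hM => h3 M hM)) hn h

end Pool.Agent.J6H24.MC
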